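import Pool.Agent.T2H87.DistMain

/-!
# The pattern `12⋯(m-2) m (m-1)` is not the least avoided uniform distant pattern

For all `m ≥ 4` and `r ≥ 1` the uniform distant pattern of `ρ_m = 2 1 3 4 ⋯ (m-2) m (m-1)` is
avoided by strictly fewer permutations of `[n]` than the one of
`τ_m = 1 2 3 ⋯ (m-2) m (m-1)`, for every `n ≥ (m-1)(r+1)+2`.

The weak inequality comes from the injection of `Pool.Agent.R153.GP1`, `GP2` (placements in
Ferrers boards with a gap condition); strictness comes from one class of the injection, which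
contains at least two permutations of one type and at most one of the other.
-/

set_option autoImplicit false

namespace Pool.Agent.Results.MP_0bc917_co.TransposedPrefix

/-- The permutation `π` of `[n]` contains the uniform distant pattern `dist_r(q)`, `q ∈ S_m`:
there are positions `i 0, …, i (m-1)`, each at least `r + 1` larger than the preceding one, whose
entries are in the same relative order as the entries of `q`. -/
def Contains {n m : ℕ} (r : ℕ) (q : Equiv.Perm (Fin m)) (π : Equiv.Perm (Fin n)) : Prop :=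
  ∃ i : Fin m → Fin n, (∀ a b : Fin m, (b : ℕ) = a + 1 → (i a : ℕ) + (r + 1) ≤ i b) ∧
    ∀ a b : Fin m, π (i a) < π (i b) ↔ q a < q b

/-- `|Av_n(dist_r(q))|`, the number of permutations of `[n]` which avoid `dist_r(q)`. -/
noncomputable def av (n r : ℕ) {m : ℕ} (q : Equiv.Perm (Fin m)) : ℕ :=
  Nat.card {π : Equiv.Perm (Fin n) // ¬ Contains r q π}

/-- `τ_m = 1 2 ⋯ (m-2) m (m-1)`: the identity with its last two entries exchanged. -/
def tau (m : ℕ) (h : 4 ≤ m) : Equiv.Perm (Fin m) :=
  Equiv.swap ⟨m - 2, by omega⟩ ⟨m - 1, by omega⟩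

/-- `ρ_m = 2 1 3 4 ⋯ (m-2) m (m-1)`: the identity with its first two and its last two entries
exchanged. -/
def rho (m : ℕ) (h : 4 ≤ m) : Equiv.Perm (Fin m) :=
  Equiv.swap ⟨0, by omega⟩ ⟨1, by omega⟩ * tau m h

/-- the values of `12⋯(s-2) s (s-1)` -/
def val (s : ℕ) (t : Fin s) : ℕ :=
  if (t : ℕ) + 2 = s then s - 1 else if (t : ℕ) + 1 = s then s - 2 else t

theorem tau_val (m : ℕ) (h : 4 ≤ m) (t : Fin m) : (tau m h t : ℕ) = val m t := by
  unfold tau val
  rw [Equiv.swap_apply_def]
  have ht := t.2
  split_ifs with h1 h2 h3 h4 h5 h6 h7 <;> simp only [Fin.ext_iff] at * <;> omega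

theorem rho_val (m : ℕ) (h : 4 ≤ m) (t : Fin m) : (rho m h t : ℕ) =
    if (t : ℕ) = 0 then 1 else if (t : ℕ) = 1 then 0 else val m t := by
  unfold rho
  rw [Equiv.Perm.mul_apply, Equiv.swap_apply_def]
  have h1 := tau_val m h t
  have ht := t.2
  unfold val at *
  split_ifs at * <;> simp only [Fin.ext_iff] at * <;> omega

theorem val_inj (s : ℕ) : Function.Injective (val s) := by
  intro a b hab
  have ha := a.2
  have hb := b.2
  unfold val at hab
  apply Fin.ext
  split_ifs at hab <;> omega

theorem val12 (s : ℕ) (hs : 2 ≤ s) (t : Fin (s + 2)) :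
    Pool.Agent.T2H87.DP.pre12 (val s) t = val (s + 2) t := by
  unfold Pool.Agent.T2H87.DP.pre12
  induction t using Fin.cases with
  | zero =>
    rw [Fin.cons_zero]
    unfold val
    have h0 : ((0 : Fin (s + 2)) : ℕ) = 0 := rfl
    rw [h0]
    split_ifs <;> omega
  | succ t =>
    rw [Fin.cons_succ]
    induction t using Fin.cases with
    | zero =>
      rw [Fin.cons_zero]
      unfold val
      have h0 : ((Fin.succ (0 : Fin (s + 1)) : Fin (s + 2)) : ℕ) = 1 := rfl
      rw [h0]
      split_ifs <;> omega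
    | succ t =>
      rw [Fin.cons_succ]
      have ht := t.2
      unfold val
      simp only [Fin.val_succ]
      split_ifs <;> omega

theorem val21 (s : ℕ) (hs : 2 ≤ s) (t : Fin (s + 2)) :
    Pool.Agent.T2H87.DP.pre21 (val s) t =
      if (t : ℕ) = 0 then 1 else if (t : ℕ) = 1 then 0 else val (s + 2) t := by
  unfold Pool.Agent.T2H87.DP.pre21
  induction t using Fin.cases with
  | zero => rfl
  | succ t =>
    rw [Fin.cons_succ]
    induction t using Fin.cases with
    | zero => rfl
    | succ t =>
      rw [Fin.cons_succ]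
      have ht := t.2
      rw [if_neg (by rw [Fin.val_succ]; omega), if_neg (by rw [Fin.val_succ, Fin.val_succ]; omega)]
      unfold val
      simp only [Fin.val_succ]
      split_ifs <;> omega

/-- **Q1 is false for every `m ≥ 4` and every `r ≥ 1`.**  For all `m ≥ 4`, all `r ≥ 1` and all
`n ≥ (m-1)(r+1)+2` we have `|Av_n(dist_r(ρ_m))| < |Av_n(dist_r(τ_m))|`. -/
theorem result : ∀ (m : ℕ) (hm : 4 ≤ m) (r : ℕ), 1 ≤ r → ∀ n : ℕ, (m - 1) * (r + 1) + 2 ≤ n →
    av n r (rho m hm) < av n r (tau m hm) := by
  intro m hm r hr n hn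
  obtain ⟨s, rfl⟩ := Nat.exists_eq_add_of_le' (show 2 ≤ m by omega)
  have h := Pool.Agent.T2H87.DP.strict_pre (s := s) (by omega) (val s) (val_inj s) hr
    (n := n) (by have : s + 2 - 1 = s + 1 := by omega
                 rw [this] at hn; exact hn)
  have e1 : ∀ π : Equiv.Perm (Fin n), Contains r (rho (s + 2) hm) π ↔
      Pool.Agent.T2H87.DP.CV r (Pool.Agent.T2H87.DP.pre21 (val s)) π := by
    intro π
    unfold Contains Pool.Agent.T2H87.DP.CV
    simp only [Fin.lt_def, rho_val, val21 s (by omega)]
  have e2 : ∀ π : Equiv.Perm (Fin n), Contains r (tau (s + 2) hm) π ↔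
      Pool.Agent.T2H87.DP.CV r (Pool.Agent.T2H87.DP.pre12 (val s)) π := by
    intro π
    unfold Contains Pool.Agent.T2H87.DP.CV
    simp only [Fin.lt_def, tau_val, val12 s (by omega)]
  unfold av
  simp only [e1, e2]
  exact h

end Pool.Agent.Results.MP_0bc917_co.TransposedPrefix
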